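import Pool.Agent.Helper91.GU.StE

/-! # Project GU: module E1 (first entry of the framing, by differentiation) -/

set_option autoImplicit false

namespace Pool.Agent.Helper80.GU

open Pool.Agent.Helper91.GU
open Polynomial

universe u

theorem hE1 (hB0 : StB0.{u}) (hEB : StEB.{u}) : StE1.{u} := by
  intro L _ _ s c hdim k g hk hγ
  set I : Ideal L[X] := idl c with hI
  have hcI : ∀ j, c j ∈ I := fun j => Ideal.subset_span ⟨j, rfl⟩
  -- the coefficients of `γ`
  obtain ⟨lam, hlam⟩ : ∃ lam : Fin (s + 1) → L[X], ∑ j, lam j * c j = 1 - C g * X ^ k := by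
    have h1 : 1 - C g * X ^ k ∈ Ideal.span (Set.range c) := hγ
    obtain ⟨lam, h2⟩ := (Submodule.mem_span_range_iff_exists_fun L[X]).1 h1
    exact ⟨lam, by simpa only [smul_eq_mul] using h2⟩
  -- differentiate
  have hXk : ∀ k : ℕ, (X : L[X]) * derivative (X ^ k : L[X]) = C (k : L) * X ^ k := by
    intro k
    rw [derivative_X_pow]
    rcases k with _ | k
    · simp
    · rw [Nat.add_sub_cancel]
      ring
  have hder : X * derivative (1 - C g * X ^ k : L[X]) = - (C (k : L) * (C g * X ^ k)) := by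
    rw [derivative_sub, derivative_one, derivative_C_mul, zero_sub]
    linear_combination (- C g) * hXk k
  have hsum : ∑ j, lam j * (X * derivative (c j)) =
      - (C (k : L) * (C g * X ^ k)) - ∑ j, (X * derivative (lam j)) * c j := by
    rw [← hder, ← hlam, derivative_sum, Finset.mul_sum, ← Finset.sum_sub_distrib]
    apply Finset.sum_congr rfl
    intro j _
    rw [derivative_mul]
    ring
  obtain ⟨κ, hκ⟩ := hk.exists_left_inv
  -- unimodularity modulo `I`
  have hum : Um (fun j => Ideal.Quotient.mk I (lam j)) := by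
    refine ⟨fun j => Ideal.Quotient.mk I (- (C κ * (X * derivative (c j)))), ?_⟩
    have e1 : (∑ j, lam j * (- (C κ * (X * derivative (c j))))) - 1 ∈ I := by
      have e2 : (∑ j, lam j * (- (C κ * (X * derivative (c j))))) =
          (- C κ) * ∑ j, lam j * (X * derivative (c j)) := by
        rw [Finset.mul_sum]
        apply Finset.sum_congr rfl
        intro j _
        ring
      rw [e2, hsum]
      have e3 : (C κ : L[X]) * C (k : L) = 1 := by rw [← C_mul, hκ, C_1]
      have e4 : (- C κ) * (- (C (k : L) * (C g * X ^ k)) - ∑ j, (X * derivative (lam j)) * c j) - 1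
          = - (1 - C g * X ^ k) + C κ * ∑ j, (X * derivative (lam j)) * c j := by
        linear_combination (C g * X ^ k) * e3
      rw [e4]
      refine I.add_mem (I.neg_mem hγ) (I.mul_mem_left _ (I.sum_mem fun j _ => ?_))
      exact I.mul_mem_left _ (hcI j)
    have e5 := Ideal.Quotient.eq.2 e1
    rw [map_one, map_sum] at e5
    rw [← e5]
    simp only [dotProduct, map_mul]
  obtain ⟨ε, hε, hεv⟩ := hEB (L[X] ⧸ I) s hdim _ hum
  obtain ⟨-, -, -, -, -, h6, -⟩ := hB0 (L[X] ⧸ I) (L[X] ⧸ I) (RingHom.id _) (Fin (s + 1))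
  obtain ⟨-, -, -, -, -, -, h7⟩ := hB0 L[X] (L[X] ⧸ I) (Ideal.Quotient.mk I) (Fin (s + 1))
  obtain ⟨-, hdet, hinv, -, -⟩ := h6 ε hε
  obtain ⟨-, -, -, htr, -⟩ := h6 _ hinv
  obtain ⟨e, he, hemap⟩ := h7 Ideal.Quotient.mk_surjective _ htr
  refine ⟨e, he, ?_⟩
  have hu : IsUnit ε.det := by rw [hdet]; exact isUnit_one
  have hl : (fun j => Ideal.Quotient.mk I (lam j)) = Matrix.vecMul (Pi.single 0 1) ε⁻¹ := by
    rw [← hεv, Matrix.vecMul_vecMul, Matrix.mul_nonsing_inv _ hu, Matrix.vecMul_one]
  have he0 : ∀ j, e j 0 - lam j ∈ I := by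
    intro j
    rw [← Ideal.Quotient.eq]
    have e1 := congrFun (congrFun hemap j) 0
    rw [Matrix.map_apply, Matrix.transpose_apply] at e1
    have e2 := congrFun hl j
    rw [Matrix.single_one_vecMul] at e2
    rw [e1]
    exact e2.symm
  have hfin : Matrix.vecMul c e 0 - (1 - C g * X ^ k) = ∑ j, c j * (e j 0 - lam j) := by
    rw [← hlam, Matrix.vecMul, dotProduct, ← Finset.sum_sub_distrib]
    apply Finset.sum_congr rfl
    intro j _
    ring
  rw [hfin, pow_two]
  exact (I * I).sum_mem fun j _ => Ideal.mul_mem_mul (hcI j) (he0 j)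

end Pool.Agent.Helper80.GU
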