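import Pool.Agent.Helper91.GU.StA

/-! # Project GU: module A0 (the patching square of localisations) -/

set_option autoImplicit false

namespace Pool.Agent.Helper80.GU

open Pool.Agent.Helper91.GU
open Polynomial

universe u

/-- if `T = A_{xy}` and `S = A_x` then `T` is the localisation of `S` at the image of `y` -/
theorem away_aux {A S T : Type u} [CommRing A] [CommRing S] [CommRing T] [Algebra A S]
    [Algebra A T] [Algebra S T] [IsScalarTower A S T] (x y : A) [IsLocalization.Away x S]
    [IsLocalization.Away (x * y) T] : IsLocalization.Away (algebraMap A S y) T := by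
  have hxS : IsUnit (algebraMap A S x) := IsLocalization.Away.algebraMap_isUnit x
  have hst : ∀ a : A, algebraMap S T (algebraMap A S a) = algebraMap A T a := fun a =>
    (IsScalarTower.algebraMap_apply A S T a).symm
  refine IsLocalization.Away.mk _ ?_ (fun z => ?_) (fun a b h => ?_)
  · rw [hst]
    exact IsLocalization.Away.isUnit_of_dvd (x := x * y) (Dvd.intro_left x rfl)
  · obtain ⟨n, a, h⟩ := IsLocalization.Away.surj (x * y) z
    obtain ⟨w, hw⟩ := hxS.exists_right_inv
    refine ⟨n, algebraMap A S a * w ^ n, ?_⟩
    have hw' : algebraMap A T x * algebraMap S T w = 1 := by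
      rw [← hst, ← map_mul, hw, map_one]
    have hwn : algebraMap A T x ^ n * algebraMap S T w ^ n = 1 := by
      rw [← mul_pow, hw', one_pow]
    rw [map_mul, hst, hst, map_pow, ← h, map_mul, mul_pow]
    linear_combination (-(z * algebraMap A T y ^ n)) * hwn
  · obtain ⟨n, a₀, ha⟩ := IsLocalization.Away.surj x a
    obtain ⟨m, b₀, hb⟩ := IsLocalization.Away.surj x b
    have ha' : algebraMap A T a₀ = algebraMap S T a * algebraMap A T x ^ n := by
      rw [← hst a₀, ← ha, map_mul, map_pow, hst]
    have hb' : algebraMap A T b₀ = algebraMap S T b * algebraMap A T x ^ m := by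
      rw [← hst b₀, ← hb, map_mul, map_pow, hst]
    have e1 : algebraMap A T (a₀ * x ^ m) = algebraMap A T (b₀ * x ^ n) := by
      rw [map_mul, map_mul, ha', hb', map_pow, map_pow, h]
      ring
    obtain ⟨k, hk⟩ := IsLocalization.Away.exists_of_eq (x * y) e1
    refine ⟨k, ?_⟩
    have e2 := congrArg (algebraMap A S) hk
    simp only [map_mul, map_pow, ← ha, ← hb] at e2
    have hu : IsUnit (algebraMap A S x ^ (k + n + m)) := hxS.pow _
    apply hu.mul_left_cancel
    linear_combination e2

theorem hA0 : StA0.{u} := by
  intro A _ f i hfi
  let T := Localization.Away (f * i)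
  have hf : IsUnit (algebraMap A T f) :=
    IsLocalization.Away.isUnit_of_dvd (x := f * i) (Dvd.intro i rfl)
  have hi : IsUnit (algebraMap A T i) :=
    IsLocalization.Away.isUnit_of_dvd (x := f * i) (Dvd.intro_left f rfl)
  let φf : Localization.Away f →+* T := IsLocalization.Away.lift f hf
  let φi : Localization.Away i →+* T := IsLocalization.Away.lift i hi
  let af : Algebra (Localization.Away f) T := φf.toAlgebra
  let ai : Algebra (Localization.Away i) T := φi.toAlgebra
  have tf : IsScalarTower A (Localization.Away f) T := by
    apply IsScalarTower.of_algebraMap_eq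
    intro a
    exact (IsLocalization.Away.lift_eq f hf a).symm
  have ti : IsScalarTower A (Localization.Away i) T := by
    apply IsScalarTower.of_algebraMap_eq
    intro a
    exact (IsLocalization.Away.lift_eq i hi a).symm
  have lfi : IsLocalization.Away (f * i) T := inferInstance
  have lif : IsLocalization.Away (i * f) T := by
    rw [mul_comm]
    exact lfi
  exact ⟨T, inferInstance, inferInstance, af, ai, tf, ti, hfi, inferInstance, inferInstance, lfi,
    away_aux f i, away_aux i f⟩

end Pool.Agent.Helper80.GU
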