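import Pool.Agent.Helper96.GU.St

/-!
Project GU (MP_2c90c1_al), module ZCV: R2 passes to infinite cyclic covers (helper80)
-/

set_option autoImplicit false

namespace Pool.Agent.Helper80.GU

open Pool.Agent.Helper96.UT hiding StTOP TopV TopE tht Bd VC EC
open Pool.Agent.Helper96.GU

section nat

variable {α Ω₁ Ω₂ Θ : Type} [MulAction (FreeGroup α) Ω₁] [MulAction (FreeGroup α) Ω₂]
  [MulAction (FreeGroup α) Θ]

/-- the map of the chains on the source -/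
private def pS (f : Ω₁ → Ω₂) : (((Ω₁ × Θ) × α) ⊕ Ω₁) → (((Ω₂ × Θ) × α) ⊕ Ω₂) :=
  Sum.map (fun e => ((f e.1.1, e.1.2), e.2)) f

/-- the map of the chains on the target -/
private def pT (f : Ω₁ → Ω₂) : ((Ω₁ × α) ⊕ (Ω₁ × Θ)) → ((Ω₂ × α) ⊕ (Ω₂ × Θ)) :=
  Sum.map (fun e => (f e.1, e.2)) (fun x => (f x.1, x.2))

/-- naturality of `TT` for equivariant maps -/
private theorem TT_nat (Z : Cyc α) (f : Ω₁ → Ω₂)
    (hf : ∀ (x : Ω₁) (g : FreeGroup α), f (act x g) = act (f x) g)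
    (x : (((Ω₁ × Θ) × α) ⊕ Ω₁) →₀ ℚ) :
    (TT Z Ω₁ Θ x).mapDomain (pT f) = TT Z Ω₂ Θ (x.mapDomain (pS f)) := by
  have key : (Finsupp.lmapDomain ℚ ℚ (pT (α := α) (Θ := Θ) f)).comp (TT Z Ω₁ Θ) =
      (TT Z Ω₂ Θ).comp (Finsupp.lmapDomain ℚ ℚ (pS (α := α) (Θ := Θ) f)) := by
    refine Finsupp.lhom_ext' fun i => LinearMap.ext_ring ?_
    simp only [LinearMap.comp_apply, Finsupp.lsingle_apply, Finsupp.lmapDomain_apply,
      Finsupp.mapDomain_single]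
    unfold TT
    rw [Finsupp.linearCombination_single, Finsupp.linearCombination_single, one_smul, one_smul]
    rcases i with e | y
    · simp only [pS, Sum.map_inl]
      rw [Finsupp.mapDomain_add, ← Finsupp.lmapDomain_apply ℚ ℚ (pT f) (_ - _), map_sub]
      simp only [Finsupp.lmapDomain_apply, Finsupp.mapDomain_single, pT, Sum.map_inl, Sum.map_inr]
      rw [act_prod, act_prod]
      simp only [hf]
    · simp only [pS, Sum.map_inr]
      have h1 := Sa_map ((Finsupp.lmapDomain ℚ ℚ (pT (α := α) (Θ := Θ) f)).toAddMonoidHom)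
        (fun e : Ω₁ × α => Finsupp.single (Sum.inl e) (1 : ℚ)) y Z.s
      have h2 := Sa_comp f hf (fun e : Ω₂ × α => Finsupp.single (Sum.inl e : (Ω₂ × α) ⊕ (Ω₂ × Θ)) (1 : ℚ)) y Z.s
      simp only [LinearMap.toAddMonoidHom_coe, Finsupp.lmapDomain_apply, Finsupp.mapDomain_single, pT,
        Sum.map_inl] at h1
      rw [← h2, h1]
      rfl
  exact LinearMap.congr_fun key x

end nat

theorem tZCV : StABS → StZCV := by
  intro hABS α Z Ω Θ _ _ θ o B D hR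
  have hτ : ∀ (x : Zc θ) (g : FreeGroup α),
      (fun y : Zc θ => zp θ y.1 (y.2 + 1)) (act x g) = act ((fun y : Zc θ => zp θ y.1 (y.2 + 1)) x) g := by
    intro x g
    change zp θ (act (zp θ x.1 x.2) g).1 ((act (zp θ x.1 x.2) g).2 + 1) = act (zp θ x.1 (x.2 + 1)) g
    rw [act_zp, act_zp]
    change zp θ (act x.1 g) (x.2 + Sa θ x.1 g + 1) = zp θ (act x.1 g) (x.2 + 1 + Sa θ x.1 g)
    rw [add_right_comm]
  have hπ : ∀ (x : Zc θ) (g : FreeGroup α), (fun y : Zc θ => y.1) (act x g) = act ((fun y : Zc θ => y.1) x) g :=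
    fun x g => Zc_fst θ x g
  intro x hx hTx
  refine hABS _ _ _ _ (TT Z Ω Θ) (TT Z (Zc θ) Θ) (pS (fun y : Zc θ => y.1))
    (Sum.elim (fun e => e.1.1.2) (fun y => y.2)) (pS (fun y : Zc θ => zp θ y.1 (y.2 + 1)))
    (pT (fun y : Zc θ => y.1)) (Sum.elim (fun e => e.1.2) (fun y => y.1.2))
    (pT (fun y : Zc θ => zp θ y.1 (y.2 + 1))) ?_ ?_ ?_ ?_ ?_ ?_ ?_ ?_ (Gd Z o B D) hR x ?_ hTx
  · rintro (e | y) <;> rfl
  · rintro (e | y) <;> rfl
  · rintro (⟨⟨⟨a, m⟩, b⟩, c⟩ | ⟨a, m⟩) (⟨⟨⟨a', m'⟩, b'⟩, c'⟩ | ⟨a', m'⟩) h1 h2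
    · simp only [pS, Sum.map_inl, Sum.inl.injEq, Prod.mk.injEq] at h1
      simp only [Sum.elim_inl] at h2
      obtain ⟨⟨rfl, rfl⟩, rfl⟩ := h1
      subst h2
      rfl
    · simp [pS] at h1
    · simp [pS] at h1
    · simp only [pS, Sum.map_inr, Sum.inr.injEq] at h1
      simp only [Sum.elim_inr] at h2
      subst h1
      subst h2
      rfl
  · rintro (⟨⟨⟨a, m⟩, b⟩, c⟩ | ⟨a, m⟩)
    · refine ⟨Sum.inl ((zp θ a (m - 1), b), c), ?_⟩
      simp only [pS, Sum.map_inl, zp, sub_add_cancel]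
    · refine ⟨Sum.inr (zp θ a (m - 1)), ?_⟩
      simp only [pS, Sum.map_inr, zp, sub_add_cancel]
  · rintro (e | y) <;> rfl
  · rintro (⟨⟨a, m⟩, b⟩ | ⟨⟨a, m⟩, b⟩) (⟨⟨a', m'⟩, b'⟩ | ⟨⟨a', m'⟩, b'⟩) h1
    · simp only [pT, Sum.map_inl, Sum.inl.injEq, Prod.mk.injEq, zp] at h1
      obtain ⟨h3, rfl⟩ := h1
      have h4 : a = a' := congrArg Prod.fst (show ((a, m + 1) : Ω × ℤ) = (a', m' + 1) from h3)
      have h5 : m + 1 = m' + 1 := congrArg Prod.snd (show ((a, m + 1) : Ω × ℤ) = (a', m' + 1) from h3)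
      have h6 : m = m' := add_right_cancel h5
      subst h4
      subst h6
      rfl
    · simp [pT] at h1
    · simp [pT] at h1
    · simp only [pT, Sum.map_inr, Sum.inr.injEq, Prod.mk.injEq, zp] at h1
      obtain ⟨h3, rfl⟩ := h1
      have h4 : a = a' := congrArg Prod.fst (show ((a, m + 1) : Ω × ℤ) = (a', m' + 1) from h3)
      have h5 : m + 1 = m' + 1 := congrArg Prod.snd (show ((a, m + 1) : Ω × ℤ) = (a', m' + 1) from h3)
      have h6 : m = m' := add_right_cancel h5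
      subst h4
      subst h6
      rfl
  · intro x
    exact (TT_nat Z _ hτ x).symm
  · intro x
    exact TT_nat Z _ hπ x
  · intro i hi
    rcases hx i hi with ⟨e, rfl, h1, h2⟩ | ⟨y, hy, rfl⟩
    · exact Or.inl ⟨((e.1.1.1, e.1.2), e.2), rfl, h1, h2⟩
    · exact Or.inr ⟨y.1, hy, rfl⟩

end Pool.Agent.Helper80.GU
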